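import Pool.Agent.H5.BTensor

set_option autoImplicit false

namespace Pool.Agent.Results.MP_9e9eb1_al.NoEigen

open Pool.Agent.H5.BTensor

/-- entries depend on the number of indices equal to `1` -/
def val (c : ℕ) : ℝ := if c = 0 then 6 else if c = 1 then -1 else if c = 2 then 1 else 3

def B : Tensor 2 2 := fun i => val (∑ t, (i t : ℕ))

theorem sum2 (f : (Fin 2 → Fin 2) → ℝ) :
    ∑ j, f j = f ![0, 0] + f ![0, 1] + f ![1, 0] + f ![1, 1] := by
  have : (Finset.univ : Finset (Fin 2 → Fin 2)) = {![0, 0], ![0, 1], ![1, 0], ![1, 1]} := by decide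
  rw [this, Finset.sum_insert (by decide), Finset.sum_insert (by decide),
    Finset.sum_insert (by decide), Finset.sum_singleton]
  ring

theorem result : ∃ B : Tensor 2 2, IsSymm B ∧ IsB0 B ∧ ∀ lam : ℝ, ¬ IsHEigenvalue B lam := by
  refine ⟨B, ?_, ?_, ?_⟩
  · intro σ i
    unfold B
    congr 1
    exact Equiv.sum_comp σ (fun t => (i t : ℕ))
  · intro i
    have r0 : rowSum B 0 = 5 := by
      rw [rowSum, sum2]; simp [B, val, Fin.sum_univ_succ]; norm_num
    have r1 : rowSum B 1 = 4 := by
      rw [rowSum, sum2]; simp [B, val, Fin.sum_univ_succ]; norm_num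
    have hj : ∀ j : Fin 2 → Fin 2, j = ![0, 0] ∨ j = ![0, 1] ∨ j = ![1, 0] ∨ j = ![1, 1] := by
      decide
    have hi : i = 0 ∨ i = 1 := by revert i; decide
    rcases hi with rfl | rfl
    · refine ⟨by rw [r0]; norm_num, fun j h => ?_⟩
      rw [r0]
      rcases hj j with rfl | rfl | rfl | rfl
      · exact absurd (by decide) h
      all_goals (simp [B, val, Fin.sum_univ_succ]; try norm_num)
    · refine ⟨by rw [r1]; norm_num, fun j h => ?_⟩
      rw [r1]
      rcases hj j with rfl | rfl | rfl | rfl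
      rotate_left 3
      · exact absurd (by decide) h
      all_goals (simp [B, val, Fin.sum_univ_succ]; try norm_num)
  · rintro lam ⟨x, hx, h⟩
    have h0 := h 0
    have h1 := h 1
    rw [sum2] at h0 h1
    simp [B, val, Fin.sum_univ_succ, Fin.prod_univ_succ] at h0 h1
    have h2 : (x 0 ^ 2 - x 0 * x 1 + x 1 ^ 2) ^ 2 = 0 := by
      linear_combination (x 1) ^ 2 * h0 - (x 0) ^ 2 * h1
    have h3 : x 0 ^ 2 - x 0 * x 1 + x 1 ^ 2 = 0 := pow_eq_zero_iff (by norm_num) |>.mp h2
    apply hx
    have h4 : x 1 = 0 := by nlinarith [sq_nonneg (2 * x 0 - x 1), sq_nonneg (x 1)]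
    have h5 : x 0 = 0 := by rw [h4] at h3; simpa using h3
    funext i
    have hi : i = 0 ∨ i = 1 := by revert i; decide
    rcases hi with rfl | rfl
    · exact h5
    · exact h4

end Pool.Agent.Results.MP_9e9eb1_al.NoEigen
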